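import Pool.Agent.helper84.NR.Spec

/-! Row PMI of project NR (helper84): the mirror image of the route along a face at `y`. -/

set_option autoImplicit false

namespace Pool.Agent.helper84.NR

open scoped Classical
open Finset

theorem PMI (hIDX : IDX_stmt) (hEDG : EDG_stmt) : PMI_stmt := by
  intro V F M x y f k0 k hne hnn hy hk1 hk hadj hfree
  obtain ⟨hinj, -, -, hcon, -⟩ := hIDX V F M.toCyc f k0
  obtain ⟨hE1, hE2⟩ := hEDG V F M
  have hyf : OnV M.toCyc f y := ⟨k0, hy⟩
  have hu : ∀ a, OnV M.toCyc f (M.bd f (k0 + a)) := fun a => ⟨k0 + a, rfl⟩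
  have hxu : ∀ a, x ≠ M.bd f (k0 + a) := by
    rintro a rfl
    exact hne f ⟨hu a, hyf⟩
  have hq1 : ∀ i, 1 ≤ i → (if i = 0 then x else M.bd f (k0 + (k + 1 - i))) = M.bd f (k0 + (k + 1 - i)) :=
    fun i hi => if_neg (by omega)
  have hedge : ∀ t, 1 ≤ t → t ≤ k →
      s(M.bd f (k0 + (k + 1 - t)), M.bd f (k0 + (k + 1 - (t + 1)))) = s(M.bd f (k0 + (k - t)), M.bd f (k0 + (k - t) + 1)) := by
    intro t ht1 ht2
    rw [Sym2.eq_swap, show k0 + (k + 1 - (t + 1)) = k0 + (k - t) by omega, show k0 + (k + 1 - t) = k0 + (k - t) + 1 by omega]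
  have hA : ∀ g i j, 1 ≤ i → i ≤ j → j ≤ k + 1 → OnV M.toCyc g (M.bd f (k0 + (k + 1 - i))) →
      OnV M.toCyc g (M.bd f (k0 + (k + 1 - j))) → ∀ t, i ≤ t → t < j →
      OnE M.toCyc g s(M.bd f (k0 + (k + 1 - t)), M.bd f (k0 + (k + 1 - (t + 1)))) := by
    intro g i j hi hij hj hgi hgj t hit htj
    rw [hedge t (by omega) (by omega)]
    by_cases hgf : g = f
    · subst hgf
      exact ⟨_, rfl⟩
    · have hne' : M.bd f (k0 + (k + 1 - j)) ≠ M.bd f (k0 + (k + 1 - i)) := by
        intro h0
        have := hinj _ _ (by omega) (by omega) h0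
        omega
      obtain ⟨p1, p2, -⟩ := M.poly f g (fun h0 => hgf h0.symm) _ _ hne' (hu _) (hu _) hgj hgi
      rcases hcon (k + 1 - j) (k + 1 - i) (by omega) (by omega) p1 with h1 | ⟨h1, h2⟩
      · have ht : t = i := by omega
        subst ht
        have e1 : k + 1 - j = k - t := by omega
        have e2 : k0 + (k + 1 - t) = k0 + (k - t) + 1 := by omega
        rw [e1, e2] at p2
        exact p2
      · exfalso
        have e1 : k + 1 - i = k := by omega
        rw [h1, e1, Nat.add_zero, hy] at p1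
        apply hnn _ hadj
        refine ⟨f, ?_⟩
        rw [Sym2.eq_swap]
        exact p1
  refine ⟨k + 1, fun i => if i = 0 then x else M.bd f (k0 + (k + 1 - i)), if_pos rfl, ?_, ?_, ?_, ?_⟩
  · show (if k + 1 = 0 then x else M.bd f (k0 + (k + 1 - (k + 1)))) = y
    rw [hq1 _ (by omega), Nat.sub_self, Nat.add_zero, hy]
  · intro i j hi hj hij
    change (if i = 0 then x else M.bd f (k0 + (k + 1 - i))) = (if j = 0 then x else M.bd f (k0 + (k + 1 - j))) at hij
    rcases Nat.eq_zero_or_pos i with rfl | hi0 <;> rcases Nat.eq_zero_or_pos j with rfl | hj0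
    · rfl
    · rw [if_pos rfl, hq1 j hj0] at hij
      exact absurd hij (hxu _)
    · rw [if_pos rfl, hq1 i hi0] at hij
      exact absurd hij.symm (hxu _)
    · rw [hq1 i hi0, hq1 j hj0] at hij
      have := hinj _ _ (by omega) (by omega) hij
      omega
  · intro i hi
    change Adj M.toCyc (if i = 0 then x else M.bd f (k0 + (k + 1 - i))) (if i + 1 = 0 then x else M.bd f (k0 + (k + 1 - (i + 1))))
    rw [hq1 (i + 1) (by omega)]
    rcases Nat.eq_zero_or_pos i with rfl | hi0
    · rw [if_pos rfl]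
      simpa using hadj
    · rw [hq1 i hi0]
      refine ⟨f, ?_⟩
      rw [hedge i hi0 (by omega)]
      exact ⟨_, rfl⟩
  · intro g i j hij hj hgi hgj t hit htj
    change OnV M.toCyc g (if i = 0 then x else M.bd f (k0 + (k + 1 - i))) at hgi
    change OnV M.toCyc g (if j = 0 then x else M.bd f (k0 + (k + 1 - j))) at hgj
    change OnE M.toCyc g s(if t = 0 then x else M.bd f (k0 + (k + 1 - t)), if t + 1 = 0 then x else M.bd f (k0 + (k + 1 - (t + 1))))
    rw [hq1 (t + 1) (by omega)]
    rw [hq1 j (by omega)] at hgj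
    rcases Nat.eq_zero_or_pos i with rfl | hi0
    · rw [if_pos rfl] at hgi
      have huk : OnV M.toCyc g (M.bd f (k0 + k)) := by
        rcases Nat.eq_zero_or_pos (k + 1 - j) with h0 | h0
        · exfalso
          rw [h0, Nat.add_zero, hy] at hgj
          exact hne g ⟨hgi, hgj⟩
        · by_cases h1 : k + 1 - j = k
          · rw [h1] at hgj
            exact hgj
          · exact hfree (k + 1 - j) h0 (by omega) g hgi hgj
      rcases Nat.eq_zero_or_pos t with rfl | ht0
      · rw [if_pos rfl]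
        simpa using hE2 g x (M.bd f (k0 + k)) hadj hgi huk
      · rw [hq1 t ht0]
        exact hA g 1 j le_rfl (by omega) hj (by simpa using huk) hgj t ht0 htj
    · rw [hq1 i hi0] at hgi
      rw [hq1 t (by omega)]
      exact hA g i j hi0 hij hj hgi hgj t hit htj

end Pool.Agent.helper84.NR
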