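import Pool.Agent.helper24.NR.Spec

/-! Row SMB of project NR: the number of common edges. -/

set_option autoImplicit false

namespace Pool.Agent.NR

open Finset

section SMB

variable {V F : Type}

theorem SMB_mem_NX [Fintype V] [Fintype F] {es : F → Finset (Sym2 V)} {x v : V} : v ∈ NX es x ↔ ∃ f, s(x, v) ∈ es f := by
  simp [NX]

theorem SMB_mem_CM [Fintype V] [Fintype F] {vs : F → Finset V} {es : F → Finset (Sym2 V)} {x y : V} {e : Sym2 V} :
    e ∈ CM vs es x y ↔ (∃ f, x ∈ vs f ∧ e ∈ es f) ∧ ∃ g, y ∈ vs g ∧ e ∈ es g := by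
  simp only [CM, EE, mem_filter, mem_biUnion, mem_univ, true_and]
  exact ⟨fun h => h.2, fun h => ⟨⟨h.1.choose, h.1.choose_spec.2⟩, h⟩⟩

theorem SMB_CM_comm [Fintype V] [Fintype F] (vs : F → Finset V) (es : F → Finset (Sym2 V)) (x y : V) :
    CM vs es x y = CM vs es y x := by
  ext e
  rw [SMB_mem_CM, SMB_mem_CM, and_comm]

/-- Adjacent vertices on a face are joined by an edge of the face. -/
theorem SMB_edge {vs : F → Finset V} {es : F → Finset (Sym2 V)} (h : Cfg vs es) {x u : V} {f k : F} (hk : s(x, u) ∈ es k)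
    (hx : x ∈ vs f) (hu : u ∈ vs f) : s(x, u) ∈ es f := by
  by_cases hkf : k = f
  · rw [← hkf]; exact hk
  · obtain ⟨h1, h2, h3⟩ := h.ends k x u hk
    exact h.meet2 f k (fun h' => hkf h'.symm) x u h3 hx hu h1 h2

open Classical in
theorem SMB_x [Fintype V] [Fintype F] {vs : F → Finset V} {es : F → Finset (Sym2 V)} {x y : V} (h : Bad vs es x y) :
    ((CM vs es x y).filter fun e => ∀ w ∈ e, w ∈ NX es x).card ≤ (SX vs es x y).card := by
  apply card_le_card_of_forall_subsingleton (fun (e : Sym2 V) (f : F) => e ∈ es f)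
  · intro e he
    rw [mem_filter] at he
    obtain ⟨he, hw⟩ := he
    obtain ⟨f, hxf, hef⟩ := (SMB_mem_CM.1 he).1
    refine ⟨f, ?_, hef⟩
    induction e with
    | _ u v =>
      simp only [SX, FX, mem_filter, mem_univ, true_and]
      exact ⟨hxf, u, v, hef, he, hw u (Sym2.mem_mk_left u v), hw v (Sym2.mem_mk_right u v)⟩
  · intro f hf
    simp only [SX, FX, mem_filter, mem_univ, true_and] at hf
    have hxf := hf.1
    have key : ∀ u v, s(u, v) ∈ es f → u ∈ NX es x → v ∈ NX es x → vs f = {x, u, v} := by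
      intro u v huv hu hv
      obtain ⟨k, hk⟩ := SMB_mem_NX.1 hu
      obtain ⟨l, hl⟩ := SMB_mem_NX.1 hv
      obtain ⟨h1, h2, h3⟩ := h.cfg.ends f u v huv
      have hxu := (h.cfg.ends k x u hk).2.2
      have hxv := (h.cfg.ends l x v hl).2.2
      have h4 := SMB_edge h.cfg hk hxf h1
      have h5 := SMB_edge h.cfg hl hxf h2
      have h6 := h.cfg.tri f x u v hxu h3 hxv h4 huv h5
      symm
      apply eq_of_subset_of_card_le
      · intro z hz
        simp only [mem_insert, mem_singleton] at hz
        rcases hz with rfl | rfl | rfl <;> assumption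
      · rw [h6, card_eq_three.2 ⟨x, u, v, hxu, hxv, h3, rfl⟩]
    rintro e ⟨he, hef⟩ e' ⟨he', hef'⟩
    rw [mem_filter] at he he'
    induction e with
    | _ u v =>
      induction e' with
      | _ p q =>
        have hu := he.2 u (Sym2.mem_mk_left u v)
        have hv := he.2 v (Sym2.mem_mk_right u v)
        have hp := he'.2 p (Sym2.mem_mk_left p q)
        have hq := he'.2 q (Sym2.mem_mk_right p q)
        have hvs := key u v hef hu hv
        obtain ⟨h1, h2, h3⟩ := h.cfg.ends f p q hef'
        obtain ⟨k, hk⟩ := SMB_mem_NX.1 hp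
        obtain ⟨l, hl⟩ := SMB_mem_NX.1 hq
        have hxp := (h.cfg.ends k x p hk).2.2
        have hxq := (h.cfg.ends l x q hl).2.2
        rw [hvs] at h1 h2
        simp only [mem_insert, mem_singleton] at h1 h2
        rw [Sym2.eq_iff]
        rcases h1 with h1 | h1 | h1
        · exact absurd h1.symm hxp
        · rcases h2 with h2 | h2 | h2
          · exact absurd h2.symm hxq
          · exact absurd (h1.trans h2.symm) h3
          · exact Or.inl ⟨h1.symm, h2.symm⟩
        · rcases h2 with h2 | h2 | h2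
          · exact absurd h2.symm hxq
          · exact Or.inr ⟨h2.symm, h1.symm⟩
          · exact absurd (h1.trans h2.symm) h3

end SMB

theorem SMB (hSYM : SYM_stmt) (hDEG : DEG_stmt) : SMB_stmt := by
  classical
  intro V F _ _ vs es x y h
  have h' := hSYM V F vs es x y h
  have hNx : NX es x ⊆ WW x y := by
    intro v hv
    obtain ⟨f, hf⟩ := SMB_mem_NX.1 hv
    obtain ⟨h1, h2, h3⟩ := h.cfg.ends f x v hf
    simp only [WW, mem_filter, mem_univ, true_and]
    exact ⟨fun h4 => h3 h4.symm, fun h4 => h.noface f h1 (h4 ▸ h2)⟩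
  have hNy : NX es y ⊆ WW x y := by
    intro v hv
    obtain ⟨f, hf⟩ := SMB_mem_NX.1 hv
    obtain ⟨h1, h2, h3⟩ := h.cfg.ends f y v hf
    simp only [WW, mem_filter, mem_univ, true_and]
    exact ⟨fun h4 => h.noface f (h4 ▸ h2) h1, fun h4 => h3 h4.symm⟩
  have hdis : Disjoint (NX es x) (NX es y) := by
    rw [disjoint_left]
    intro v hv hv'
    obtain ⟨f, hf⟩ := SMB_mem_NX.1 hv
    obtain ⟨g, hg⟩ := SMB_mem_NX.1 hv'
    exact h.hA v f g hf hg
  have hcard : (WW x y \ (NX es x ∪ NX es y)).card + ((FX vs x).card + (FX vs y).card) = (WW x y).card := by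
    rw [← hDEG V F vs es x h.cfg, ← hDEG V F vs es y h.cfg, ← card_union_of_disjoint hdis]
    exact card_sdiff_add_card_eq_card (union_subset hNx hNy)
  have hP : ((CM vs es x y).filter fun e => ∃ w ∈ WW x y \ (NX es x ∪ NX es y), w ∈ e).card ≤ (WW x y \ (NX es x ∪ NX es y)).card := by
    apply card_le_card_of_forall_subsingleton (fun (e : Sym2 V) (w : V) => w ∈ e)
    · intro e he
      exact (mem_filter.1 he).2
    · intro w hw
      simp only [mem_sdiff, mem_union, not_or] at hw
      rintro e ⟨he, hwe⟩ e' ⟨he', hwe'⟩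
      obtain ⟨p, rfl⟩ := hwe
      obtain ⟨q, rfl⟩ := hwe'
      rw [mem_filter] at he he'
      obtain ⟨⟨f, hxf, hef⟩, g, hyg, heg⟩ := SMB_mem_CM.1 he.1
      obtain ⟨⟨f', hxf', hef'⟩, g', hyg', heg'⟩ := SMB_mem_CM.1 he'.1
      by_contra hne
      have hpq : p ≠ q := fun h0 => hne (by rw [h0])
      have ef := h.cfg.ends f w p hef
      have ef' := h.cfg.ends f' w q hef'
      have eg := h.cfg.ends g w p heg
      have eg' := h.cfg.ends g' w q heg'
      have hxw : x ≠ w := by
        rintro rfl
        exact h.noface g eg.1 hyg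
      have hyw : y ≠ w := by
        rintro rfl
        exact h.noface f hxf ef.1
      have hff : f = f' := by
        by_contra h0
        exact hw.2.1 (SMB_mem_NX.2 ⟨f, h.cfg.meet2 f f' h0 x w hxw hxf ef.1 hxf' ef'.1⟩)
      have hgg : g = g' := by
        by_contra h0
        exact hw.2.2 (SMB_mem_NX.2 ⟨g, h.cfg.meet2 g g' h0 y w hyw hyg eg.1 hyg' eg'.1⟩)
      subst hff hgg
      have hfg : f ≠ g := by
        rintro rfl
        exact h.noface f hxf hyg
      exact h.cfg.meet3 f g hfg w p q ef.2.2 hpq ef'.2.2 ef.1 ef.2.1 ef'.2.1 eg.1 eg.2.1 eg'.2.1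
  have hX := SMB_x h
  have hY := SMB_x h'
  rw [← SMB_CM_comm vs es x y] at hY
  have hsub : CM vs es x y ⊆ ((CM vs es x y).filter fun e => ∃ w ∈ WW x y \ (NX es x ∪ NX es y), w ∈ e) ∪
      (((CM vs es x y).filter fun e => ∀ w ∈ e, w ∈ NX es x) ∪ ((CM vs es x y).filter fun e => ∀ w ∈ e, w ∈ NX es y)) := by
    intro e he
    induction e with
    | _ u v =>
      obtain ⟨⟨f, hxf, hef⟩, g, hyg, heg⟩ := SMB_mem_CM.1 he
      have ef := h.cfg.ends f u v hef
      have eg := h.cfg.ends g u v heg
      have hW : ∀ w, w ∈ vs f → w ∈ vs g → w ∈ WW x y := by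
        intro w h1 h2
        simp only [WW, mem_filter, mem_univ, true_and]
        exact ⟨fun h3 => h.noface g (h3 ▸ h2) hyg, fun h3 => h.noface f hxf (h3 ▸ h1)⟩
      have huW := hW u ef.1 eg.1
      have hvW := hW v ef.2.1 eg.2.1
      simp only [mem_union, mem_filter]
      by_cases hu : u ∈ NX es x ∨ u ∈ NX es y
      · by_cases hv : v ∈ NX es x ∨ v ∈ NX es y
        · right
          rcases hu with hu | hu <;> rcases hv with hv | hv
          · left
            refine ⟨he, ?_⟩
            intro w hw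
            rcases Sym2.mem_iff.1 hw with rfl | rfl <;> assumption
          · exfalso
            obtain ⟨k, hk⟩ := SMB_mem_NX.1 hu
            obtain ⟨l, hl⟩ := SMB_mem_NX.1 hv
            exact h.hB u v f g k l hk hl hxf hyg hef heg
          · exfalso
            obtain ⟨k, hk⟩ := SMB_mem_NX.1 hv
            obtain ⟨l, hl⟩ := SMB_mem_NX.1 hu
            rw [Sym2.eq_swap] at hef heg
            exact h.hB v u f g k l hk hl hxf hyg hef heg
          · right
            refine ⟨he, ?_⟩
            intro w hw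
            rcases Sym2.mem_iff.1 hw with rfl | rfl <;> assumption
        · left
          refine ⟨he, v, ?_, Sym2.mem_mk_right u v⟩
          simp only [mem_sdiff, mem_union]
          exact ⟨hvW, hv⟩
      · left
        refine ⟨he, u, ?_, Sym2.mem_mk_left u v⟩
        simp only [mem_sdiff, mem_union]
        exact ⟨huW, hu⟩
  have hle := (card_le_card hsub).trans (card_union_le _ _)
  have hle2 := card_union_le ((CM vs es x y).filter fun e => ∀ w ∈ e, w ∈ NX es x) ((CM vs es x y).filter fun e => ∀ w ∈ e, w ∈ NX es y)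
  omega

end Pool.Agent.NR
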